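import Mathlib
import Pool.Agent.H890.Fo8

/-!
MP_5ee2d0_ag, Q1: anticanonically divisible smooth divisors. The statement for manifolds with
`K_X ~ 0` and `H^1(X, O_X) = 0` implies (is equivalent to) the same statement for manifolds `X` with
`H^1(X, O_X) = 0` such that some member of `|-N K_X|`, `N ≥ 4`, is smooth.
-/

set_option autoImplicit false

namespace Pool.Agent.Results.MP_5ee2d0_ag.FermatBundles

open FF Pool.Agent.Y172 Pool.Agent.R887 Pool.Agent.H890

/-- (1) Let `X` be a projective manifold over `ℂ` of dimension `n ≥ 1` with function field `K` (`y`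
is its generic point, in homogeneous coordinates), without nonzero global `1`-forms (that is,
`H^1(X, O_X) = 0`). Let `Λ` be a divisor with `K_X ~ -Λ`, and let `D` be a smooth divisor on `X` (it
may be zero or disconnected) which is linearly equivalent to `N Λ`, so that `D` is a member of
`|-N K_X|`, `N = r + 2 ≥ 4`, the divisor of the function `s` being `D - N Λ`. Then there is a
projective manifold `V` of dimension `n + N - 2`, with generic point `v` and function field `M`, with
the following properties.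

* `M` is the function field of the Fermat hypersurface
  `z_0 ^ N + s z_1 ^ N + z_2 ^ N + … + z_{N-1} ^ N = 0` in `P ^ (N - 1)` over `K`.
* `K_V` is linearly equivalent to zero, and there are no nonzero global `1`-forms on `V`.
* Every nef `ℚ`-divisor `E` on `X` has a nef pull-back `E'` to `V`, which is semiample if and only if
  `E` is semiample.

(2) Hence Q1 (for manifolds of all dimensions `≥ 1`) is equivalent to the following: if `X, D, Λ, N`
are as in (1), then every nef `ℚ`-divisor on `X` is semiample. -/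
theorem result :
    (∀ (K : Type) [Field K] [Algebra ℂ K] (n r N : ℕ) (y : Fin (N + 1) → K)
      (D Λ : Place ℂ K → ℤ) (s : K), Algebra.trdeg ℂ K = n → 1 ≤ n → 2 ≤ r →
      NormalModel y → SmoothPair y n D → Divides y n (r + 2) D Λ s →
      CanonicalDivisor y n (fun P => -(Λ P : ℚ)) → NoForms K n →
      ∃ (M : Type) (_ : Field M) (_ : Algebra ℂ M) (_ : Algebra K M) (_ : IsScalarTower ℂ K M)
        (z : Fin (r + 2) → M) (N' : ℕ) (v : Fin (N' + 1) → M), FermatField K s r 1 z ∧
        Algebra.trdeg ℂ M = (n + r : ℕ) ∧ NormalModel v ∧ SmoothVariety v (n + r) ∧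
        CanonicalDivisor v (n + r) 0 ∧ NoForms M (n + r) ∧
        ∀ E : Place ℂ K → ℚ, QDivisor y E → NefDivisor y n E → ∃ E' : Place ℂ M → ℚ,
          IsPullBack y v E E' ∧ QDivisor v E' ∧ NefDivisor v (n + r) E' ∧
          (SemiampleDivisor v (n + r) E' ↔ SemiampleDivisor y n E)) ∧
    ((∀ (K : Type) [Field K] [Algebra ℂ K] (n N : ℕ) (y : Fin (N + 1) → K),
        Algebra.trdeg ℂ K = n → 1 ≤ n → NormalModel y → SmoothVariety y n →
        CanonicalDivisor y n 0 → NoForms K n →
        ∀ E : Place ℂ K → ℚ, QDivisor y E → NefDivisor y n E → SemiampleDivisor y n E) ↔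
      ∀ (K : Type) [Field K] [Algebra ℂ K] (n r N : ℕ) (y : Fin (N + 1) → K)
        (D Λ : Place ℂ K → ℤ) (s : K), Algebra.trdeg ℂ K = n → 1 ≤ n → 2 ≤ r →
        NormalModel y → SmoothPair y n D → Divides y n (r + 2) D Λ s →
        CanonicalDivisor y n (fun P => -(Λ P : ℚ)) → NoForms K n →
        ∀ E : Place ℂ K → ℚ, QDivisor y E → NefDivisor y n E → SemiampleDivisor y n E) := by
  refine ⟨fun K _ _ n r N y D Λ s hn hn1 hr hy hsm hD hcan hK =>
    fermat_cy K hr hn1 hn hy hD hsm hcan hK, ⟨fun h => ?_, fun h => ?_⟩⟩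
  · intro K _ _ n r N y D Λ s hn hn1 hr hy hsm hD hcan hK E hE hnef
    obtain ⟨M, _, _, _, _, z, N', v, -, h1, h2, h3, h4, h5, h6⟩ :=
      fermat_cy K hr hn1 hn hy hD hsm hcan hK
    obtain ⟨E', -, h7, h8, h9⟩ := h6 E hE hnef
    exact h9.1 (h M _ N' v h1 (by omega) h2 h3 h4 h5 E' h7 h8)
  · intro K _ _ n N y hn hn1 hy hsm hcan hK
    refine h K n 2 N y 0 0 1 hn hn1 le_rfl hy (smoothPair_zero hy hsm) (divides_zero y n 4) ?_ hK
    have h2 : (fun P : Place ℂ K => -(((0 : Place ℂ K → ℤ) P : ℤ) : ℚ)) = 0 := by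
      funext P
      simp
    rwa [h2]

end Pool.Agent.Results.MP_5ee2d0_ag.FermatBundles
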