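import Pool.Agent.H897.MB

/-!
MP_5ee2d0_ag, Q1: nef divisors on manifolds with trivial canonical class and Picard number two, and
the sections of the tensor powers of the cotangent bundle with values in the multiples of the
divisor.

**The pair.** `NormalModel y` (`Pool/Agent/Y172/Defs.lean`): `y` is the generic point, in
homogeneous coordinates, of a normal projective variety `X` with function field `K`,
`n = dim X`. `Boundary y Δ`: `Δ` is a `ℚ`-divisor with coefficients `Δ P` between `0` and `1` at
the prime divisors `P` (`IsPrimeDivisor y P`); the case of the problem is `Δ = 0`.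

**Degrees** (`RG.lean`, `VE.lean`, `JI.lean`). `MovableClass y α`: `α` is a linear function on the
divisors which is nonnegative on the prime divisors and `0` on principal divisors. `HasDeg y α e s`:
the divisor `∑ e P • P` has the degree `s`. `LogDegree y n Δ α c`: `(K_X + Δ) . α = c`. A
distribution is a `K`-subspace `F` of the space of the rational vector fields `Derivation ℂ K K`, the
generic fibre of a saturated subsheaf of the orbifold tangent sheaf `T (X, Δ)`, for `Δ = 0` of `T_X`.
`WedgeOrd n δ P D e`: `e` is the order along `P` of `D 0 ∧ ⋯ ∧ D (r - 1)` as a rational section of the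
exterior power of `T (X, Δ)`. `SubDeg y n Δ α F d`: the degree of `F` is `d`.
`SemistableTangent y n Δ α c`: `T (X, Δ)` is `α`-semistable, the slopes of the distributions are at
most `- c / n`. `StablePiece y n Δ α W V`: the sheaf `V / W` is `α`-stable.

**Multiples of `L`** (`MA.lean`, `MB.lean`). `QEff y D`: the `ℚ`-divisor `D` is `ℚ`-effective, some
multiple `M D`, `M ≥ 1`, is linearly equivalent to an effective divisor; for `D = L` this means
`κ (X, L) ≥ 0`. `DetMultiple y n Δ L F b`: the determinant of `F` is `ℚ`-linearly equivalent
to `b L`. `slopeL V b i = (b (i + 1) - b i) / (rk V (i + 1) - rk V i)`.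

**Tensors** (`JJ.lean`). `TensorAt n δ ℓ P T`: the multilinear form `T` on the `m`-th power of the
space of the rational vector fields is regular along `P` with values in a divisor with the
coefficient `ℓ`. For `Δ = 0` the `T` with `TensorAt n 0 (a * L P) P T` for all prime divisors `P`
are the sections of `(Ω_X) ^ ⊗ m ⊗ a L` over a smooth `X`. `HasType V T J`: `T` induces a nonzero
form on the product of the `V (J s + 1) / V (J s)`, `s < m`.

**Theorem.** Let `α` be a movable class with `(K_X + Δ) . α = 0` for which `T (X, Δ)` is semistable,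
and let `L` be a `ℚ`-divisor with `L . α = 0`. Assume that the determinants of the distributions
of degree `0` are `ℚ`-linearly equivalent to multiples of `L`. Then there is a filtration
`0 = V 0 ⊂ V 1 ⊂ ⋯ ⊂ V k = T (X, Δ)` with `α`-stable graded pieces of the slope `0`, with
`det V i = b i L`, such that for every rational number `a` and every nonzero section `T` of the
`m`-th tensor power, `m ≥ 1`, of the dual of `T (X, Δ)` with values in `a L`:
(1) `T` has a type `J`, and for each such type `a - ∑ s, slopeL V b (J s)` times `L` is
`ℚ`-effective;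
(2) if `slopeL V b i ≤ β` for all `i < k` and `a > β m`, then `κ (X, L) ≥ 0`;
(3) if neither `L` nor `- L` is `ℚ`-effective, then `a = ∑ s, slopeL V b (J s)` for each type `J`
of `T`;
(4) if there is another movable class `α'` with `(K_X + Δ) . α' = 0` for which `T (X, Δ)` is
semistable, and `L . α' > 0`, then `b i ≤ 0` for all `i`, and if `a ≠ 0` then either `a > 0` and
`κ (X, L) ≥ 0`, or `b i < 0` for some `0 < i < k`.

**The problem.** Let `X` be a projective manifold with `K_X = 0`, `H¹ (X, O_X) = 0` and Picard
number `2`, and let `L` be a nef divisor which is not big and not `0`. Let `ν` be the numerical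
dimension of `L` and `H` an ample divisor. Then `α = L ^ ν . H ^ (n - 1 - ν)` is a movable class with
`L . α = 0`, `H . α > 0`, and the divisors `D` with `D . α = 0` are `ℚ`-linearly equivalent to
multiples of `L`. `T_X` is semistable with respect to all movable classes. So the theorem
applies, with `α' = H ^ (n - 1)`. It says: either `κ (X, L) ≥ 0`; or all sections of
`(Ω_X) ^ ⊗ m ⊗ a L`, `a > β m`, are `0`, the weights `a` of the nonzero sections are given by the
types, and if there are nonzero sections for some `a ≠ 0`, then a positive multiple of `L` is the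
determinant of a quotient of `Ω_X`.

**Proof.** The divisors `a L - ∑ s, det (V (J s + 1) / V (J s)) / r (J s)` are `ℚ`-effective
by the semistability of the tensor on the graded pieces: Kempf's optimal flag of the tensor,
normalised by the determinants of the blocks, is trivial by the stability of the blocks
(`JordanHoelderTensors` of MP_e06174_ag), and here they are multiples of `L`.
-/

set_option autoImplicit false

open FF Pool.Agent.W602.GT Pool.Agent.Y172 Pool.Agent.NH31 Pool.Agent.H897

namespace Pool.Agent.Results.MP_5ee2d0_ag.PicardNumberTwo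

/-- **Tensors with values in the multiples of a nef divisor.** -/
theorem result {K : Type} [Field K] [Algebra ℂ K] {N n : ℕ} {y : Fin (N + 1) → K}
    (hy : NormalModel y) (hn : Algebra.trdeg ℂ K = n) (hn1 : 1 ≤ n) {Δ : Place ℂ K → ℚ}
    (hΔ : Boundary y Δ) {α : Place ℂ K → ℝ} (hα : MovableClass y α)
    (hc : LogDegree y n Δ α 0) (hss : SemistableTangent y n Δ α 0) {L : Place ℂ K → ℚ}
    (hL : HasDeg y α (fun P => L P) 0)
    (hdet : ∀ F : Submodule K (Derivation ℂ K K), SubDeg y n Δ α F 0 →
      ∃ b, DetMultiple y n Δ L F b) :
    ∃ (k : ℕ) (V : ℕ → Submodule K (Derivation ℂ K K)) (b : ℕ → ℚ), V 0 = ⊥ ∧ V k = ⊤ ∧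
      (∀ i, i < k → V i < V (i + 1) ∧ StablePiece y n Δ α (V i) (V (i + 1))) ∧
      (∀ i, i ≤ k → SubDeg y n Δ α (V i) 0 ∧ DetMultiple y n Δ L (V i) (b i)) ∧
      ∀ (m : ℕ) (a : ℚ) (T : MultilinearMap K (fun _ : Fin m => Derivation ℂ K K) K), 1 ≤ m →
        T ≠ 0 → (∀ P, IsPrimeDivisor y P → TensorAt n (Δ P) (a * L P) P T) →
        (∃ J : Fin m → Fin k, HasType V T J) ∧
        (∀ J : Fin m → Fin k, HasType V T J →
          QEff y (fun P => (a - ∑ s, slopeL V b (J s)) * L P)) ∧
        (∀ β : ℚ, (∀ i, i < k → slopeL V b i ≤ β) → β * m < a → QEff y L) ∧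
        (¬ QEff y L → ¬ QEff y (fun P => -L P) →
          ∀ J : Fin m → Fin k, HasType V T J → a = ∑ s, slopeL V b (J s)) ∧
        ∀ (α' : Place ℂ K → ℝ) (lam : ℝ), MovableClass y α' → LogDegree y n Δ α' 0 →
          SemistableTangent y n Δ α' 0 → HasDeg y α' (fun P => L P) lam → 0 < lam →
          (∀ i, i ≤ k → b i ≤ 0) ∧
          (a ≠ 0 → (0 < a ∧ QEff y L) ∨ ∃ i, 0 < i ∧ i < k ∧ b i < 0) :=
  pic_main hy hn hn1 hΔ hα hc hss hL hdet

end Pool.Agent.Results.MP_5ee2d0_ag.PicardNumberTwo
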